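import Mathlib

open TopologicalSpace Topology Filter Pointwise

namespace Pool.Agent.Results.MP_a90892_an.Equiv

universe u

/-- A Furstenberg family: closed upward and not containing the empty set. -/
def IsFurstenberg (A : Set (Set ℕ)) : Prop :=
  (∀ a ∈ A, ∀ b : Set ℕ, a ⊆ b → b ∈ A) ∧ (∅ : Set ℕ) ∉ A

/-- The `ℓ`-return set `{n | ⋂_{0 ≤ j ≤ ℓ} g^{-jn} (U) ≠ ∅}`. -/
def returnSet {Y : Type u} (g : Y → Y) (l : ℕ) (U : Set Y) : Set ℕ :=
  {n | (⋂ j ∈ Set.Iic l, (g^[j * n]) ⁻¹' U).Nonempty}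

/-- Topological `(ℓ, A)`-recurrence. -/
def TopRec {Y : Type u} [TopologicalSpace Y] (g : Y → Y) (l : ℕ) (A : Set (Set ℕ)) : Prop :=
  ∀ U : Set Y, IsOpen U → U.Nonempty → returnSet g l U ∈ A

variable {X : Type u} [AddCommGroup X] [Module ℝ X] [TopologicalSpace X]

/-- The hyperextension `K ↦ f (K)` on the non-empty compact sets (Vietoris topology). -/
def hyper (f : X →L[ℝ] X) : NonemptyCompacts X → NonemptyCompacts X :=
  fun K => K.map f f.continuous

/-- Its restriction to the non-empty compact convex sets (subspace topology). -/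
def hyperConv (f : X →L[ℝ] X) :
    {K : NonemptyCompacts X // Convex ℝ (K : Set X)} →
      {K : NonemptyCompacts X // Convex ℝ (K : Set X)} :=
  fun K => ⟨hyper f K.1, K.2.linear_image (f : X →ₗ[ℝ] X)⟩

theorem hyper_iter (f : X →L[ℝ] X) (m : ℕ) (K : NonemptyCompacts X) :
    (((hyper f)^[m] K : NonemptyCompacts X) : Set X) = f^[m] '' (K : Set X) := by
  induction m with
  | zero => simp
  | succ m ih =>
    rw [Function.iterate_succ_apply', Function.iterate_succ', Set.image_comp, ← ih]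
    rfl

theorem hyperConv_iter (f : X →L[ℝ] X) (m : ℕ)
    (K : {K : NonemptyCompacts X // Convex ℝ (K : Set X)}) :
    ((hyperConv f)^[m] K).1 = (hyper f)^[m] K.1 := by
  induction m with
  | zero => simp
  | succ m ih =>
    rw [Function.iterate_succ_apply', Function.iterate_succ_apply', ← ih]
    rfl

theorem mem_returnSet {Y : Type u} (g : Y → Y) (l : ℕ) (U : Set Y) (n : ℕ) :
    n ∈ returnSet g l U ↔ ∃ y, ∀ j ≤ l, g^[j * n] y ∈ U := by
  simp [returnSet, Set.Nonempty]

/-- The intermediate property. -/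
def HypH (f : X →L[ℝ] X) (l : ℕ) (A : Set (Set ℕ)) : Prop :=
  ∀ F : Set X, F.Finite → F.Nonempty → ∀ B ∈ 𝓝 (0 : X),
    {n : ℕ | ∃ L : Set X, (∀ j ≤ l, ∀ y ∈ L, ∃ z ∈ convexHull ℝ F, f^[j * n] y - z ∈ B) ∧
      ∀ x ∈ F, ∃ y ∈ L, y - x ∈ B} ∈ A

/-- Recurrence of all finite products. -/
def HypP (f : X →L[ℝ] X) (l : ℕ) (A : Set (Set ℕ)) : Prop :=
  ∀ u : Set (Set X), u.Finite → (∀ U ∈ u, IsOpen U ∧ U.Nonempty) →
    {n : ℕ | ∀ U ∈ u, ∃ y, ∀ j ≤ l, f^[j * n] y ∈ U} ∈ A

variable [IsTopologicalAddGroup X] [ContinuousSMul ℝ X]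

theorem hypH_of {f : X →L[ℝ] X} {l : ℕ} {A : Set (Set ℕ)} (hA : IsFurstenberg A)
    (h : ∀ W : Set (NonemptyCompacts X), IsOpen W → (∃ K ∈ W, Convex ℝ (K : Set X)) →
      returnSet (hyper f) l W ∈ A) : HypH f l A := by
  intro F hF hne B hB
  have hB0 : (0 : X) ∈ interior B := mem_interior_iff_mem_nhds.2 hB
  let W : Set (NonemptyCompacts X) :=
    {K | (K : Set X) ⊆ convexHull ℝ F + interior B} ∩
      ⋂ x ∈ F, {K | ((K : Set X) ∩ ({x} + interior B)).Nonempty}
  have hW : IsOpen W :=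
    (NonemptyCompacts.isOpen_subsets_of_isOpen isOpen_interior.add_left).inter
      (hF.isOpen_biInter fun x _ =>
        NonemptyCompacts.isOpen_inter_nonempty_of_isOpen isOpen_interior.add_left)
  let K₀ : NonemptyCompacts X :=
    ⟨⟨convexHull ℝ F, hF.isCompact_convexHull ℝ⟩, hne.mono (subset_convexHull ℝ F)⟩
  have hK₀ : K₀ ∈ W := by
    refine ⟨fun z hz => ⟨z, hz, 0, hB0, add_zero z⟩, Set.mem_iInter₂.2 fun x hx => ?_⟩
    exact ⟨x, subset_convexHull ℝ F hx, x, rfl, 0, hB0, add_zero x⟩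
  refine hA.1 _ (h W hW ⟨K₀, hK₀, convex_convexHull ℝ F⟩) _ fun n hn => ?_
  obtain ⟨L, hL⟩ := (mem_returnSet _ _ _ _).1 hn
  refine ⟨L, fun j hj y hy => ?_, fun x hx => ?_⟩
  · have h1 : (((hyper f)^[j * n] L : NonemptyCompacts X) : Set X) ⊆
        convexHull ℝ F + interior B := (hL j hj).1
    rw [hyper_iter] at h1
    obtain ⟨z, hz, b, hb, hzb⟩ := h1 ⟨y, hy, rfl⟩
    refine ⟨z, hz, ?_⟩
    have : f^[j * n] y - z = b := by rw [← hzb]; simp
    rw [this]
    exact interior_subset hb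
  · have h1 := Set.mem_iInter₂.1 (hL 0 (Nat.zero_le _)).2 x hx
    simp only [zero_mul, Function.iterate_zero, id_eq, Set.mem_ofPred_eq] at h1
    obtain ⟨y, hy, x', rfl, b, hb, hxb⟩ := h1
    refine ⟨y, hy, ?_⟩
    have : y - x' = b := by rw [← hxb]; simp
    rw [this]
    exact interior_subset hb

theorem iter_comm (f p : X →L[ℝ] X) (hp : ∀ x, p (f x) = f (p x)) (m : ℕ) (x : X) :
    p (f^[m] x) = f^[m] (p x) := by
  induction m with
  | zero => simp
  | succ m ih => rw [Function.iterate_succ_apply', Function.iterate_succ_apply', hp, ih]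

theorem iter_eq (f : X →L[ℝ] X) (m : ℕ) (x : X) : f^[m] x = (f ^ m) x := by
  induction m with
  | zero => rfl
  | succ m ih => rw [Function.iterate_succ_apply', pow_succ', ih]; rfl

theorem hull_sub {ι : Type*} [DecidableEq ι] (s : Finset ι) (x : ι → X) :
    convexHull ℝ (x '' (s : Set ι)) ⊆
      {z | ∃ t : ι → ℝ, (∀ k, 0 ≤ t k) ∧ ∑ k ∈ s, t k = 1 ∧ z = ∑ k ∈ s, t k • x k} := by
  refine convexHull_min ?_ ?_
  · rintro _ ⟨i, hi, rfl⟩
    refine ⟨Pi.single i 1, fun k => ?_, ?_, ?_⟩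
    · by_cases h : k = i
      · subst h; simp
      · simp [h]
    · rw [Finset.sum_eq_single_of_mem i hi] <;> simp +contextual
    · rw [Finset.sum_eq_single_of_mem i hi] <;> simp +contextual
  · rintro _ ⟨t, ht0, ht1, rfl⟩ _ ⟨t', ht0', ht1', rfl⟩ a b ha hb hab
    refine ⟨fun k => a * t k + b * t' k, fun k => by have := ht0 k; have := ht0' k; positivity,
      ?_, ?_⟩
    · rw [Finset.sum_add_distrib, ← Finset.mul_sum, ← Finset.mul_sum, ht1, ht1']
      simpa using hab
    · simp only [Finset.smul_sum, add_smul, Finset.sum_add_distrib, smul_smul]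

theorem key {f : X →L[ℝ] X} {l : ℕ} {A : Set (Set ℕ)} (hA : IsFurstenberg A) (hH : HypH f l A)
    {ι : Type*} [Fintype ι] [DecidableEq ι] (c : ℕ) : ∀ (s : Finset ι), s.card = c →
      ∀ U : ι → Set X, (∀ i ∈ s, IsOpen (U i) ∧ (U i).Nonempty) →
      {n : ℕ | ∀ i ∈ s, ∃ y, ∀ j ≤ l, f^[j * n] y ∈ U i} ∈ A := by
  induction c with
  | zero =>
    intro s hs U _
    rw [Finset.card_eq_zero] at hs
    subst hs
    exact hA.1 _ (hH {0} (Set.finite_singleton _) (Set.singleton_nonempty _) _ univ_mem) _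
      fun n _ => by simp
  | succ c ih =>
    intro s hs U hU
    by_cases hcase : ∃ k ∈ s, ∃ (y : ι → X) (p : ι → X →L[ℝ] X), (∀ i ∈ s.erase k, y i ∈ U i) ∧
        (∀ i x, p i (f x) = f (p i x)) ∧ ∑ i ∈ s.erase k, p i (y i) ∈ U k
    · obtain ⟨k, hk, y, p, hy, hp, hsum⟩ := hcase
      have hcont : Continuous fun z : ι → X => ∑ i ∈ s.erase k, p i (z i) :=
        continuous_finsetSum _ fun i _ => (p i).continuous.comp (continuous_apply i)
      obtain ⟨v, hv, hvsub⟩ := isOpen_pi_iff'.1 ((hU k hk).1.preimage hcont) y hsum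
      have h1 := ih (s.erase k) (by rw [Finset.card_erase_of_mem hk, hs]; rfl)
        (fun i => U i ∩ v i) (fun i hi =>
          ⟨(hU i (Finset.mem_of_mem_erase hi)).1.inter (hv i).1, y i, hy i hi, (hv i).2⟩)
      refine hA.1 _ h1 _ fun n hn i hi => ?_
      by_cases hik : i = k
      · subst hik
        choose! z hz using hn
        refine ⟨∑ a ∈ s.erase i, p a (z a), fun j hj => ?_⟩
        have h2 : (fun a => if a ∈ s.erase i then f^[j * n] (z a) else y a) ∈ Set.univ.pi v := by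
          intro a _
          by_cases ha : a ∈ s.erase i
          · simp only [ha, if_true]; exact (hz a ha j hj).2
          · simp only [ha, if_false]; exact (hv a).2
        have h3 := hvsub h2
        simp only [Set.mem_preimage] at h3
        have h4 : f^[j * n] (∑ a ∈ s.erase i, p a (z a)) =
            ∑ a ∈ s.erase i, p a (if a ∈ s.erase i then f^[j * n] (z a) else y a) := by
          rw [iter_eq, map_sum]
          refine Finset.sum_congr rfl fun a ha => ?_
          rw [if_pos ha, iter_comm f (p a) (hp a), iter_eq]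
        rw [h4]
        exact h3
      · obtain ⟨z, hz⟩ := hn i (Finset.mem_erase.2 ⟨hik, hi⟩)
        exact ⟨z, fun j hj => (hz j hj).1⟩
    · push Not at hcase
      have hne : ∀ i ∈ s, ∃ x, x ∈ U i := fun i hi => (hU i hi).2
      choose! x hx using hne
      have hN0 : {v : X | ∀ k ∈ s, x k + v ∈ U k} ∈ 𝓝 (0 : X) := by
        have : ∀ᶠ v in 𝓝 (0 : X), ∀ k ∈ s, x k + v ∈ U k := by
          rw [Filter.eventually_all_finset]
          intro k hk
          have hc : Continuous fun v : X => x k + v := continuous_const.add continuous_id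
          exact hc.continuousAt.preimage_mem_nhds
            ((hU k hk).1.mem_nhds (by simpa using hx k hk))
        exact this
      obtain ⟨V₁, hV₁, hV₁add⟩ := exists_nhds_zero_half hN0
      obtain ⟨V, ⟨hV, hVb⟩, hVsub⟩ := (nhds_basis_balanced ℝ X).mem_iff.1 hV₁
      have hVV : ∀ v ∈ V, ∀ w ∈ V, ∀ k ∈ s, x k + (v + w) ∈ U k := fun v hv w hw =>
        hV₁add v (hVsub hv) w (hVsub hw)
      have hV0 : (0 : X) ∈ V := mem_of_mem_nhds hV
      have hev : ∀ᶠ t in 𝓝 (0 : ι → ℝ), ∀ i, ∑ a ∈ s, t a • (x a - x i) ∈ V := by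
        rw [Filter.eventually_all]
        intro i
        have hc : Continuous fun t : ι → ℝ => ∑ a ∈ s, t a • (x a - x i) :=
          continuous_finsetSum _ fun a _ => (continuous_apply a).smul continuous_const
        exact hc.continuousAt.preimage_mem_nhds (by simpa using hV)
      obtain ⟨δ₀, hδ₀, hδ₀V⟩ := Metric.eventually_nhds_iff.1 hev
      set δ := min δ₀ 1 with hδ
      have hδpos : 0 < δ := lt_min hδ₀ one_pos
      have hδ1 : δ ≤ 1 := min_le_right _ _
      have hδ2 : δ ≤ δ₀ := min_le_left _ _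
      have hB : {b : X | δ⁻¹ • b ∈ V} ∈ 𝓝 (0 : X) := by
        have hc : Continuous fun b : X => δ⁻¹ • b := continuous_const_smul _
        exact hc.continuousAt.preimage_mem_nhds (by simpa using hV)
      have hBV : ∀ b : X, δ⁻¹ • b ∈ V → ∀ r : ℝ, |r| * δ ≤ 1 → r • b ∈ V := by
        intro b hb r hr
        refine hVb.smul_mem_mono hb ?_
        rw [Real.norm_eq_abs, Real.norm_eq_abs, abs_of_pos (inv_pos.2 hδpos), inv_eq_one_div,
          le_div_iff₀ hδpos]
        exact hr
      have hsne : s.Nonempty := by rw [← Finset.card_pos, hs]; omega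
      have h1 := hH (x '' (s : Set ι)) (s.finite_toSet.image x)
        ((Finset.coe_nonempty.2 hsne).image x) _ hB
      refine hA.1 _ h1 _ ?_
      rintro n ⟨L, hL1, hL2⟩ i hi
      obtain ⟨y, hyL, hy⟩ := hL2 (x i) ⟨i, hi, rfl⟩
      refine ⟨y, fun j hj => ?_⟩
      obtain ⟨z, hz, hb⟩ := hL1 j hj y hyL
      obtain ⟨t, ht0, ht1, rfl⟩ := hull_sub s x hz
      simp only [Set.mem_ofPred_eq] at hb hy
      have hti : t i ≤ 1 := ht1 ▸ Finset.single_le_sum (fun a _ => ht0 a) hi
      have hyU : y ∈ U i := by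
        have := hVV _ (hBV _ hy 1 (by simpa using hδ1)) 0 hV0 i hi
        simpa using this
      have hsmall : ∀ k ∈ s, k ≠ i → t k < δ := by
        intro k hk hki
        by_contra hlt
        push Not at hlt
        have htk : 0 < t k := hδpos.trans_le hlt
        have hik : i ∈ s.erase k := Finset.mem_erase.2 ⟨hki.symm, hi⟩
        refine hcase k hk (Function.update x i y)
          (fun a => if a = i then (t k)⁻¹ • (f ^ (j * n) - t i • ContinuousLinearMap.id ℝ X)
            else (-(t k)⁻¹ * t a) • ContinuousLinearMap.id ℝ X) ?_ ?_ ?_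
        · intro a ha
          by_cases hai : a = i
          · subst hai; simpa using hyU
          · rw [Function.update_of_ne hai]; exact hx a (Finset.mem_of_mem_erase ha)
        · intro a w
          by_cases hai : a = i
          · simp only [hai, if_true, _root_.smul_apply, _root_.sub_apply,
              ContinuousLinearMap.id_apply, map_smul, map_sub]
            rw [← iter_eq, ← iter_eq, iter_comm f f (fun _ => rfl)]
          · simp [hai]
        · have e1 := hBV _ hb (t k)⁻¹ (by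
            rw [abs_of_pos (inv_pos.2 htk), inv_mul_le_iff₀ htk]; simpa using hlt)
          have e2 := hBV _ hy (-((t k)⁻¹ * t i)) (by
            rw [abs_neg, abs_of_nonneg (mul_nonneg (inv_pos.2 htk).le (ht0 i)), mul_assoc,
              inv_mul_le_iff₀ htk]
            nlinarith [ht0 i])
          have e3 := hVV _ e1 _ e2 k hk
          convert e3 using 1
          rw [← Finset.add_sum_erase _ _ hik, ← Finset.add_sum_erase _ _ hk,
            ← Finset.add_sum_erase _ _ hik]
          have e4 : ∑ a ∈ (s.erase k).erase i,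
              (if a = i then (t k)⁻¹ • (f ^ (j * n) - t i • ContinuousLinearMap.id ℝ X)
                else (-(t k)⁻¹ * t a) • ContinuousLinearMap.id ℝ X) (Function.update x i y a) =
              -(t k)⁻¹ • ∑ a ∈ (s.erase k).erase i, t a • x a := by
            rw [Finset.smul_sum]
            refine Finset.sum_congr rfl fun a ha => ?_
            have hai : a ≠ i := (Finset.mem_erase.1 ha).1
            rw [if_neg hai, Function.update_of_ne hai, smul_smul]
            simp
          rw [e4]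
          simp only [if_true, Function.update_self, _root_.smul_apply,
            _root_.sub_apply, ContinuousLinearMap.id_apply, ← iter_eq]
          have e5 : x k = (t k)⁻¹ • (t k • x k) := by
            rw [smul_smul, inv_mul_cancel₀ htk.ne', one_smul]
          generalize ∑ a ∈ (s.erase k).erase i, t a • x a = S
          generalize f^[j * n] y = w
          conv_rhs => rw [e5]
          rw [← e5]
          nth_rewrite 1 [e5]
          module
      have e1 : ∑ a ∈ s, (fun a => if a ∈ s.erase i then t a else 0) a • (x a - x i) ∈ V := by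
        refine hδ₀V ?_ i
        rw [dist_pi_lt_iff hδ₀]
        intro a
        by_cases ha : a ∈ s.erase i
        · simp only [ha, if_true, Pi.zero_apply, Real.dist_eq, sub_zero, abs_of_nonneg (ht0 a)]
          exact (hsmall a (Finset.mem_of_mem_erase ha) (Finset.mem_erase.1 ha).1).trans_le hδ2
        · simp only [ha, if_false, Pi.zero_apply, dist_self]
          exact hδ₀
      have e2 : ∑ a ∈ s, (fun a => if a ∈ s.erase i then t a else 0) a • (x a - x i) =
          ∑ a ∈ s, t a • x a - x i := by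
        have : ∑ a ∈ s, t a • x a - x i = ∑ a ∈ s, t a • (x a - x i) := by
          simp only [smul_sub, Finset.sum_sub_distrib, ← Finset.sum_smul, ht1, one_smul]
        rw [this]
        refine Finset.sum_congr rfl fun a ha => ?_
        by_cases hai : a = i
        · subst hai; simp
        · simp [hai, ha]
      rw [e2] at e1
      have e3 := hVV _ e1 _ (hBV _ hb 1 (by simpa using hδ1)) i hi
      convert e3 using 1
      simp

theorem hypP_of {f : X →L[ℝ] X} {l : ℕ} {A : Set (Set ℕ)} (hA : IsFurstenberg A)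
    (hH : HypH f l A) : HypP f l A := by
  classical
  intro u hu hU
  have := hu.fintype
  have h := key hA hH (ι := u) _ Finset.univ rfl (fun U => U.1) fun U _ => hU U.1 U.2
  exact hA.1 _ h _ fun n hn U hUu => hn ⟨U, hUu⟩ (Finset.mem_univ _)

theorem conv_of [LocallyConvexSpace ℝ X] {f : X →L[ℝ] X} {l : ℕ} {A : Set (Set ℕ)}
    (hA : IsFurstenberg A) (hP : HypP f l A) : TopRec (hyperConv f) l A := by
  rintro W hW ⟨K, hK⟩
  obtain ⟨W', hW', rfl⟩ := isOpen_induced_iff.1 hW
  obtain ⟨_, ⟨u, ⟨hu, hune, huo⟩, rfl⟩, ⟨hK1, hK2⟩, hsub⟩ :=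
    NonemptyCompacts.isTopologicalBasis.exists_subset_of_mem_open hK hW'
  obtain ⟨V, hV, hKV⟩ := compact_open_separated_add_right K.1.isCompact (isOpen_sUnion huo) hK1
  obtain ⟨B, ⟨hB0, hBo, hBc⟩, hBV⟩ := (LocallyConvexSpace.convex_open_basis_zero ℝ X).mem_iff.1 hV
  have hGo : IsOpen ((K.1 : Set X) + B) := hBo.add_left
  have hGc : Convex ℝ ((K.1 : Set X) + B) := K.2.add hBc
  have hGs : (K.1 : Set X) + B ⊆ ⋃₀ u := (Set.add_subset_add_left hBV).trans hKV
  have h1 := hP ((fun U => U ∩ ((K.1 : Set X) + B)) '' u) (hu.image _) (by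
    rintro _ ⟨U, hU, rfl⟩
    obtain ⟨z, hz1, hz2⟩ := hK2 U hU
    exact ⟨(huo U hU).inter hGo, z, hz2, z, hz1, 0, hB0, add_zero z⟩)
  refine hA.1 _ h1 _ fun n hn => ?_
  have h2 : ∀ U ∈ u, ∃ y, ∀ j ≤ l, f^[j * n] y ∈ U ∩ ((K.1 : Set X) + B) :=
    fun U hU => hn _ ⟨U, hU, rfl⟩
  choose! y hy using h2
  let L : NonemptyCompacts X := ⟨⟨convexHull ℝ (y '' u), (hu.image y).isCompact_convexHull ℝ⟩,
    (hune.image y).mono (subset_convexHull ℝ _)⟩
  refine (mem_returnSet _ _ _ _).2 ⟨⟨L, convex_convexHull ℝ _⟩, fun j hj => ?_⟩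
  rw [Set.mem_preimage, hyperConv_iter]
  refine hsub ⟨?_, fun U hU => ?_⟩
  · rw [hyper_iter]
    refine Set.Subset.trans ?_ hGs
    rw [Set.image_subset_iff]
    have e : (f^[j * n]) ⁻¹' ((K.1 : Set X) + B) =
        ((f ^ (j * n) : X →L[ℝ] X) : X →ₗ[ℝ] X) ⁻¹' ((K.1 : Set X) + B) := by
      ext w; rw [Set.mem_preimage, Set.mem_preimage, iter_eq]; rfl
    refine convexHull_min ?_ (e ▸ hGc.linear_preimage _)
    rintro _ ⟨U, hU, rfl⟩
    exact (hy U hU j hj).2
  · rw [hyper_iter]
    exact ⟨_, ⟨y U, subset_convexHull ℝ _ ⟨U, hU, rfl⟩, rfl⟩, (hy U hU j hj).1⟩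

theorem comp_of {f : X →L[ℝ] X} {l : ℕ} {A : Set (Set ℕ)}
    (hA : IsFurstenberg A) (hP : HypP f l A) : TopRec (hyper f) l A := by
  rintro W hW ⟨K, hK⟩
  obtain ⟨_, ⟨u, ⟨hu, hune, huo⟩, rfl⟩, ⟨hK1, hK2⟩, hsub⟩ :=
    NonemptyCompacts.isTopologicalBasis.exists_subset_of_mem_open hK hW
  have h1 := hP u hu fun U hU => ⟨huo U hU, (hK2 U hU).mono Set.inter_subset_right⟩
  refine hA.1 _ h1 _ fun n hn => ?_
  have h2 : ∀ U ∈ u, ∃ y, ∀ j ≤ l, f^[j * n] y ∈ U := hn
  choose! y hy using h2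
  let L : NonemptyCompacts X := ⟨⟨y '' u, (hu.image y).isCompact⟩, hune.image y⟩
  refine (mem_returnSet _ _ _ _).2 ⟨L, fun j hj => ?_⟩
  refine hsub ⟨?_, fun U hU => ?_⟩
  · rw [hyper_iter]
    rintro _ ⟨_, ⟨U, hU, rfl⟩, rfl⟩
    exact ⟨U, hU, hy U hU j hj⟩
  · rw [hyper_iter]
    exact ⟨_, ⟨y U, ⟨U, hU, rfl⟩, rfl⟩, hy U hU j hj⟩

theorem result (X : Type u) [AddCommGroup X] [Module ℝ X] [TopologicalSpace X]
    [IsTopologicalAddGroup X] [ContinuousSMul ℝ X] [LocallyConvexSpace ℝ X]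
    (f : X →L[ℝ] X) (l : ℕ) (A : Set (Set ℕ)) (hA : IsFurstenberg A) :
    TopRec (hyper f) l A ↔ TopRec (hyperConv f) l A := by
  constructor
  · intro h
    refine conv_of hA (hypP_of hA (hypH_of hA fun W hW ⟨K, hK, _⟩ => h W hW ⟨K, hK⟩))
  · intro h
    refine comp_of hA (hypP_of hA (hypH_of hA fun W hW ⟨K, hK, hKc⟩ => ?_))
    refine hA.1 _ (h (Subtype.val ⁻¹' W) (hW.preimage continuous_subtype_val) ⟨⟨K, hKc⟩, hK⟩) _
      fun n hn => ?_
    obtain ⟨L, hL⟩ := (mem_returnSet _ _ _ _).1 hn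
    refine (mem_returnSet _ _ _ _).2 ⟨L.1, fun j hj => ?_⟩
    rw [← hyperConv_iter]
    exact hL j hj

end Pool.Agent.Results.MP_a90892_an.Equiv
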